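import Mathlib
import Pool.Agent.N13.SI.Main
import Pool.Agent.H699R2.ExpTrans

set_option autoImplicit false

/-!
# `1`, `e`, `π` and the damped sine integrals

For `0 < θ ≤ π / 2` and `x ≥ 0` let `S(θ, x) = ∫_x^∞ exp (-t cos θ) * sin (t sin θ) / t dt` (the limit
of the integrals from `x` to `R`). For example `S(π/2, x) = ∫_x^∞ sin t / t dt` and
`S(π/6, x) = ∫_x^∞ exp (-√3 t / 2) * sin (t / 2) / t dt`.

For complex numbers `a_1, …, a_n` with `a_n ≠ 0` let `I(a_1, …, a_n)` be the iterated integral of the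
forms `ω_{a_1}(t_1), …, ω_{a_n}(t_n)` over `1 > t_1 > … > t_n > 0`, where `ω_0 = dt / t` and
`ω_a = (exp (a t) - 1) dt / t` for `a ≠ 0`. Let `𝓕` be the field which is generated by all algebraic
numbers, all numbers `exp b`, `b` algebraic, and all numbers `I(a_1, …, a_n)` with algebraic
`a_1, …, a_n` such that not (`Re a_1 ≤ 0` and `Im a_1 < 0`). (The condition concerns `a_1` only and holds
if `a_1` is real. So `𝓕` contains, for example, the numbers `∑_m a^m / (m^j m!)` for `a` real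
algebraic and `j ≥ 1`, or for `a` algebraic and `j ≥ 2`.)

(1) `S(θ, x)` exists, and `S(θ, 0) = θ`. So `π = 2 S(π/2, 0)`.

Let `𝓝` be the following set of numbers with names: the number `π`, and the numbers `S(θ, x)` for all
`θ` in `(0, π/2]` for which `θ / π` is rational and all real algebraic `x > 0`.

(2) At most one of the numbers in `𝓝` is algebraic over `𝓕`. For all numbers `v` in `𝓝` but at most one,
`e` and `v` are algebraically independent (so that `v + e`, `v - e`, `v e`, `v / e` are transcendental),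
and `1, e, v` are linearly independent over `ℚ`.

(3) If `π` is algebraic over `𝓕`, for example if `e` and `π` are algebraically dependent or if `1, e, π`
are linearly dependent over `ℚ`, then all the numbers `S(θ, x)` in `𝓝` are algebraically independent
over `𝓕`.

(4) Let `y_1, …, y_r` be complex numbers and `Θ` a set of real numbers `θ` in `(0, π/2]` for which
`exp (i θ)` is algebraic and `θ` is algebraic over `𝓕(y_1, …, y_r)`. At most `r` of the numbers
`y_1, …, y_r` and `S(θ, x)`, `θ` in `Θ`, `x > 0` real algebraic, are algebraic over `𝓕`, and for all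
finite sets `A` of such pairs `(θ, x)` the field `𝓕(y_1, …, y_r, S(θ, x) : (θ, x) ∈ A)` has
transcendence degree at least `|A|` over `𝓕`.
-/

namespace Pool.Agent.Results.MP_58e087_nt.DampedSineIntegrals

open Set Filter Topology

/-- `∫_x^R exp (-t cos θ) sin (t sin θ) / t dt` -/
noncomputable def partialIntegral (θ x R : ℝ) : ℝ :=
  ∫ t in x..R, Real.exp (-(t * Real.cos θ)) * Real.sin (t * Real.sin θ) / t

/-- `S(θ, x)` -/
noncomputable def S (θ x : ℝ) : ℝ := limUnder atTop (partialIntegral θ x)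

/-- the iterated integral of `ω_{a_1}(t_1), …, ω_{a_n}(t_n)` over `t > t_1 > … > t_n > 0` -/
noncomputable def iterated : List ℂ → ℝ → ℂ
  | [], _ => 1
  | a :: v, t => ∫ s in (0 : ℝ)..t, (if a = 0 then 1 else Complex.exp (a * s) - 1) * iterated v s / s

/-- `I(a_1, …, a_n)` -/
noncomputable def I (w : List ℂ) : ℂ := iterated w 1

/-- the entries are algebraic, the last one is not zero, and not (`Re a_1 ≤ 0` and `Im a_1 < 0`) -/
def Admissible (w : List ℂ) : Prop :=
  (∀ a ∈ w, IsAlgebraic ℚ a) ∧ (∀ h : w ≠ [], w.getLast h ≠ 0) ∧ ∀ h : w ≠ [], ¬ ((w.head h).re ≤ 0 ∧ (w.head h).im < 0)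

/-- the field `𝓕` -/
noncomputable def baseField : IntermediateField ℚ ℂ := IntermediateField.adjoin ℚ
  ({z | IsAlgebraic ℚ z} ∪ {z | ∃ b : ℂ, IsAlgebraic ℚ b ∧ z = Complex.exp b} ∪
    {z | ∃ w : List ℂ, Admissible w ∧ z = I w})

/-- `z` is algebraic over `𝓕` -/
def AlgebraicOver (z : ℂ) : Prop := IsAlgebraic baseField z

/-- `z` is algebraic over `𝓕(y_1, …, y_r)` -/
def AlgebraicOverAnd {r : ℕ} (y : Fin r → ℂ) (z : ℂ) : Prop :=
  IsAlgebraic (IntermediateField.adjoin baseField (range y)) z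

/-- the pairs `(θ, x)` with `θ` in `(0, π/2]`, `exp (i θ)` algebraic and `x > 0` real algebraic -/
def pairs : Set (ℝ × ℝ) :=
  {p | 0 < p.1 ∧ p.1 ≤ Real.pi / 2 ∧ IsAlgebraic ℚ (Complex.exp (p.1 * Complex.I)) ∧ 0 < p.2 ∧ IsAlgebraic ℚ p.2}

/-- the pairs `(θ, x)` with `θ` in `(0, π/2]`, `θ / π` rational and `x > 0` real algebraic -/
def piPairs : Set (ℝ × ℝ) :=
  {p | 0 < p.1 ∧ p.1 ≤ Real.pi / 2 ∧ (∃ q : ℚ, p.1 = q * Real.pi) ∧ 0 < p.2 ∧ IsAlgebraic ℚ p.2}

/-- the names of the numbers in `𝓝`: `none` is the name of `π` and `(θ, x)` the name of `S(θ, x)` -/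
def names : Set (Option (ℝ × ℝ)) := {o | ∀ p, o = some p → p ∈ piPairs}

/-- the number with a given name -/
noncomputable def number (o : Option (ℝ × ℝ)) : ℝ := o.elim Real.pi fun p => S p.1 p.2

/-- `1, e, v` are linearly dependent over `ℚ` -/
def Dependent (v : ℝ) : Prop := ∃ a b c : ℤ, ¬ (a = 0 ∧ b = 0 ∧ c = 0) ∧ a + b * Real.exp 1 + c * v = 0

/-- the names of those of the numbers `y_1, …, y_r` and `S(θ, x)`, `θ` in `Θ`, `x > 0` real algebraic,
which are algebraic over `𝓕` -/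
def algebraicNames {r : ℕ} (y : Fin r → ℂ) (Θ : Set ℝ) : Set (Fin r ⊕ (ℝ × ℝ)) :=
  {n | Sum.elim (fun j => AlgebraicOver (y j)) (fun p => p.1 ∈ Θ ∧ p ∈ pairs ∧ AlgebraicOver (S p.1 p.2)) n}

theorem S_eq : S = Pool.Agent.N13.SI.S := rfl

open Pool.Agent.N902.EW in
theorem iterated_eq (w : List ℂ) : ∀ t : ℝ, iterated w t = II w t := by
  induction w with
  | nil => intro t; rfl
  | cons a v ih =>
    intro t
    rw [iterated, II]
    refine intervalIntegral.integral_congr fun s _ => ?_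
    show (if a = 0 then 1 else Complex.exp (a * s) - 1) * iterated v s / s = _
    rw [ih]

open Pool.Agent.N902.EW Pool.Agent.N13.SI in
theorem baseField_eq : baseField = FF := by
  rw [baseField, FF, GS]
  refine le_antisymm (IntermediateField.adjoin_le_iff.2 ?_) (IntermediateField.adjoin_le_iff.2 ?_)
  · rintro z (hz | ⟨w, hw, rfl⟩)
    · exact IntermediateField.subset_adjoin _ _ (Or.inl hz)
    · rcases w with _ | ⟨a, v⟩
      · have : I [] = 1 := rfl
        rw [this]
        exact one_mem _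
      · exact IntermediateField.subset_adjoin _ _ (Or.inr ⟨a, v, hw.2.2 (List.cons_ne_nil _ _), ⟨hw.1, hw.2.1⟩,
          iterated_eq _ 1⟩)
  · rintro z (hz | ⟨a, v, ha, hw, rfl⟩)
    · exact IntermediateField.subset_adjoin _ _ (Or.inl hz)
    · exact IntermediateField.subset_adjoin _ _ (Or.inr ⟨a :: v, ⟨hw.1, hw.2, fun _ => ha⟩, (iterated_eq _ 1).symm⟩)

theorem over_iff (z : ℂ) : AlgebraicOver z ↔ IsAlgebraic Pool.Agent.N13.SI.FF z := by
  unfold AlgebraicOver
  rw [baseField_eq]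

theorem overAnd_iff {r : ℕ} (y : Fin r → ℂ) (z : ℂ) :
    AlgebraicOverAnd y z ↔ IsAlgebraic (IntermediateField.adjoin Pool.Agent.N13.SI.FF (range y)) z := by
  unfold AlgebraicOverAnd
  rw [baseField_eq]

theorem exp_mem : Complex.exp 1 ∈ baseField :=
  IntermediateField.subset_adjoin _ _ (Or.inl (Or.inr ⟨1, isAlgebraic_one, rfl⟩))

theorem piPairs_sub {p : ℝ × ℝ} (hp : p ∈ piPairs) : p ∈ pairs := by
  obtain ⟨h0, h1, ⟨q, hq⟩, h2, h3⟩ := hp
  refine ⟨h0, h1, ?_, h2, h3⟩
  have hd : (q.den : ℂ) ≠ 0 := by exact_mod_cast q.den_nz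
  have h4 : Complex.exp (p.1 * Complex.I) ^ (2 * q.den) = 1 := by
    rw [← Complex.exp_nat_mul, Complex.exp_eq_one_iff]
    refine ⟨q.num, ?_⟩
    rw [hq]
    have : (q : ℂ) = (q.num : ℂ) / (q.den : ℂ) := by exact_mod_cast (Rat.num_div_den q).symm
    push_cast
    rw [this]
    field_simp
  refine IsAlgebraic.of_pow (n := 2 * q.den) (by have := q.den_pos; omega) ?_
  rw [h4]
  exact isAlgebraic_one

theorem names_le {r : ℕ} (y : Fin r → ℂ) (Θ : Set ℝ) (hΘ : ∀ θ ∈ Θ, AlgebraicOverAnd y (θ : ℂ)) :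
    (algebraicNames y Θ).encard ≤ (r : ℕ∞) := by
  refine le_trans ?_ (Pool.Agent.N13.SI.count y Θ fun θ hθ => (overAnd_iff _ _).1 (hΘ θ hθ))
  let g : Fin r ⊕ {p : ℝ × ℝ // p ∈ Pool.Agent.N13.SI.Nm ∧ p.1 ∈ Θ} → Fin r ⊕ (ℝ × ℝ) := Sum.map id Subtype.val
  have hsub : algebraicNames y Θ ⊆ g '' {n : Fin r ⊕ {p : ℝ × ℝ // p ∈ Pool.Agent.N13.SI.Nm ∧ p.1 ∈ Θ} |
      Sum.elim (fun j => IsAlgebraic Pool.Agent.N13.SI.FF (y j))
        (fun p => IsAlgebraic Pool.Agent.N13.SI.FF ((Pool.Agent.N13.SI.S p.1.1 p.1.2 : ℝ) : ℂ)) n} := by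
    rintro (j | p) hn
    · have hn' : AlgebraicOver (y j) := hn
      rw [over_iff] at hn'
      exact ⟨Sum.inl j, hn', rfl⟩
    · have hn' : p.1 ∈ Θ ∧ p ∈ pairs ∧ AlgebraicOver (S p.1 p.2) := hn
      rw [over_iff, S_eq] at hn'
      exact ⟨Sum.inr ⟨p, hn'.2.1, hn'.1⟩, hn'.2.2, rfl⟩
  exact (encard_le_encard hsub).trans (encard_image_le _ _)

/-- the field `𝓕(π)` contains all rational multiples of `π` -/
theorem alg_mult {p : ℝ × ℝ} (hp : p ∈ piPairs) {r : ℕ} (y : Fin r → ℂ) (hy : AlgebraicOverAnd y (Real.pi : ℂ)) :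
    AlgebraicOverAnd y (p.1 : ℂ) := by
  obtain ⟨_, _, ⟨q, hq⟩, _⟩ := hp
  rw [hq]
  push_cast
  exact IsAlgebraic.mul (by
    have : (q : ℂ) = algebraMap ℚ ℂ q := by simp
    rw [this]
    exact isAlgebraic_algebraMap (R := IntermediateField.adjoin baseField (range y)) (algebraMap ℚ _ q)) hy

/-- at most one of the numbers is algebraic over the base field -/
theorem one_le : {o ∈ names | AlgebraicOver (number o)}.encard ≤ 1 := by
  have hy : AlgebraicOverAnd (fun _ : Fin 1 => (Real.pi : ℂ)) (Real.pi : ℂ) :=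
    isAlgebraic_algebraMap (⟨(Real.pi : ℂ), IntermediateField.subset_adjoin _ _ ⟨0, rfl⟩⟩ :
      IntermediateField.adjoin baseField (range fun _ : Fin 1 => (Real.pi : ℂ)))
  have h := names_le (fun _ : Fin 1 => (Real.pi : ℂ)) {θ | AlgebraicOverAnd (fun _ : Fin 1 => (Real.pi : ℂ)) (θ : ℂ)}
    (fun θ hθ => hθ)
  let g : Option (ℝ × ℝ) → Fin 1 ⊕ (ℝ × ℝ) := fun o => o.elim (Sum.inl 0) fun p => Sum.inr p
  have hg : Function.Injective g := by
    intro a b hab
    cases a <;> cases b <;> simp_all [g]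
  have h2 : g '' {o ∈ names | AlgebraicOver (number o)} ⊆ algebraicNames (fun _ : Fin 1 => (Real.pi : ℂ))
      {θ | AlgebraicOverAnd (fun _ : Fin 1 => (Real.pi : ℂ)) (θ : ℂ)} := by
    rintro _ ⟨o, ho, rfl⟩
    cases o with
    | none => exact ho.2
    | some p => exact ⟨alg_mult (ho.1 p rfl) _ hy, piPairs_sub (ho.1 p rfl), ho.2⟩
  calc _ = (g '' {o ∈ names | AlgebraicOver (number o)}).encard := (hg.encard_image _).symm
    _ ≤ _ := encard_le_encard h2
    _ ≤ 1 := by exact_mod_cast h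

/-- if `e` and `v` are algebraically dependent then `v` is algebraic over the base field -/
theorem over_of_dep {v : ℝ} (h : ¬ AlgebraicIndependent ℚ ![Real.exp 1, v]) : AlgebraicOver v := by
  by_contra hv
  refine h ?_
  have h1 : AlgebraicIndependent ℚ (fun _ : Unit => Complex.exp 1) := by
    rw [algebraicIndependent_unique_type_iff]
    intro h2
    refine Pool.Agent.H699R2.exp_one_not_algebraic ?_
    have h3 : IsAlgebraic ℚ ((Real.exp 1 : ℝ) : ℂ) := by
      rw [Complex.ofReal_exp, Complex.ofReal_one]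
      exact h2
    exact (isAlgebraic_algebraMap_iff (algebraMap ℝ ℂ).injective).1 h3
  have h2 := (h1.option_iff_transcendental (v : ℂ)).2 (by
    have hle : Algebra.adjoin ℚ (range fun _ : Unit => Complex.exp 1) ≤ baseField.toSubalgebra := by
      refine Algebra.adjoin_le ?_
      rintro _ ⟨_, rfl⟩
      exact exp_mem
    exact Transcendental.of_tower_top_of_subalgebra_le hle hv)
  have h3 := h2.comp (![some (), none] : Fin 2 → Option Unit) (by
    intro a b hab
    fin_cases a <;> fin_cases b <;> simp_all)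
  have h4 : ((fun o : Option Unit => o.elim (v : ℂ) fun _ => Complex.exp 1) ∘ (![some (), none] : Fin 2 → Option Unit)) =
      ((Algebra.ofId ℝ ℂ).restrictScalars ℚ) ∘ ![Real.exp 1, v] := by
    funext a
    fin_cases a
    · show Complex.exp 1 = ((Real.exp 1 : ℝ) : ℂ)
      rw [Complex.ofReal_exp, Complex.ofReal_one]
    · rfl
  rw [h4] at h3
  exact AlgebraicIndependent.of_comp _ h3

/-- if `1, e, v` are linearly dependent then `v` is algebraic over the base field -/
theorem over_of_lin {v : ℝ} (h : Dependent v) : AlgebraicOver v := by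
  obtain ⟨a, b, c, h0, h1⟩ := h
  have hc : c ≠ 0 := by
    rintro rfl
    rw [Int.cast_zero, zero_mul, add_zero] at h1
    have hb : b = 0 := by
      by_contra hb
      refine Pool.Agent.H699R2.exp_one_not_algebraic ?_
      have hb' : (b : ℝ) ≠ 0 := by exact_mod_cast hb
      have h2 : Real.exp 1 = algebraMap ℚ ℝ (-(a : ℚ) / b) := by
        simp only [eq_ratCast]
        push_cast
        rw [eq_div_iff hb']
        linarith
      rw [h2]
      exact isAlgebraic_algebraMap _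
    subst hb
    rw [Int.cast_zero, zero_mul, add_zero] at h1
    exact h0 ⟨by exact_mod_cast h1, rfl, rfl⟩
  have hc' : (c : ℂ) ≠ 0 := by exact_mod_cast hc
  have h2 : (v : ℂ) = -((a : ℂ) + b * Complex.exp 1) / c := by
    rw [eq_div_iff hc']
    have h3 : ((a + b * Real.exp 1 + c * v : ℝ) : ℂ) = 0 := by rw [h1]; simp
    push_cast at h3
    linear_combination h3
  have h4 : (v : ℂ) ∈ baseField := by
    rw [h2]
    exact div_mem (neg_mem (add_mem (intCast_mem _ _) (mul_mem (intCast_mem _ _) exp_mem))) (intCast_mem _ _)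
  exact isAlgebraic_algebraMap (⟨(v : ℂ), h4⟩ : baseField)

theorem over_pi_mult (h : AlgebraicOver Real.pi) {p : ℝ × ℝ} (hp : p ∈ piPairs) : AlgebraicOver (p.1 : ℂ) := by
  obtain ⟨_, _, ⟨q, hq⟩, _⟩ := hp
  rw [hq]
  push_cast
  exact IsAlgebraic.mul (by
    have : (q : ℂ) = algebraMap ℚ ℂ q := by simp
    rw [this]
    exact isAlgebraic_algebraMap (R := baseField) (algebraMap ℚ _ q)) h

theorem indep (h : AlgebraicOver Real.pi) :
    AlgebraicIndependent baseField (fun p : piPairs => ((S p.1.1 p.1.2 : ℝ) : ℂ)) := by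
  have h1 := Pool.Agent.N13.SI.ai_S {θ | AlgebraicOver (θ : ℂ)} (fun θ hθ => (over_iff _).1 hθ)
  rw [baseField_eq, S_eq]
  exact h1.comp (fun p : piPairs => (⟨p.1, piPairs_sub p.2, over_pi_mult h p.2⟩ :
    {p : ℝ × ℝ // p ∈ Pool.Agent.N13.SI.Nm ∧ p.1 ∈ {θ : ℝ | AlgebraicOver (θ : ℂ)}})) (by
    intro a b hab
    exact Subtype.ext (congrArg (fun q => q.1) hab))

theorem result :
    -- (1)
    (∀ θ x : ℝ, 0 < θ → θ ≤ Real.pi / 2 → 0 ≤ x → Tendsto (partialIntegral θ x) atTop (𝓝 (S θ x)) ∧ S θ 0 = θ) ∧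
    -- (2)
    {o ∈ names | AlgebraicOver (number o)}.encard ≤ 1 ∧
    {o ∈ names | ¬ AlgebraicIndependent ℚ ![Real.exp 1, number o]}.encard ≤ 1 ∧
    {o ∈ names | Dependent (number o)}.encard ≤ 1 ∧
    -- (3)
    (AlgebraicOver Real.pi ∨ ¬ AlgebraicIndependent ℚ ![Real.exp 1, Real.pi] ∨ Dependent Real.pi →
      AlgebraicIndependent baseField (fun p : piPairs => ((S p.1.1 p.1.2 : ℝ) : ℂ))) ∧
    -- (4)
    ∀ (r : ℕ) (y : Fin r → ℂ) (Θ : Set ℝ), (∀ θ ∈ Θ, AlgebraicOverAnd y (θ : ℂ)) →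
      (algebraicNames y Θ).encard ≤ (r : ℕ∞) ∧
      ∀ A : Finset (ℝ × ℝ), (∀ p ∈ A, p.1 ∈ Θ ∧ p ∈ pairs) →
        (A.card : Cardinal) ≤ Algebra.trdeg baseField (IntermediateField.adjoin baseField
          (range y ∪ (fun p : ℝ × ℝ => ((S p.1 p.2 : ℝ) : ℂ)) '' (A : Set (ℝ × ℝ)))) := by
  have hs1 : {o ∈ names | ¬ AlgebraicIndependent ℚ ![Real.exp 1, number o]} ⊆ {o ∈ names | AlgebraicOver (number o)} :=
    fun o ho => ⟨ho.1, over_of_dep ho.2⟩
  have hs2 : {o ∈ names | Dependent (number o)} ⊆ {o ∈ names | AlgebraicOver (number o)} :=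
    fun o ho => ⟨ho.1, over_of_lin ho.2⟩
  refine ⟨fun θ x h0 h1 _ => ⟨Pool.Agent.N13.SI.tendsto_S θ x h0.le h1, Pool.Agent.N13.SI.S_zero θ h0.le h1⟩, one_le,
    (encard_le_encard hs1).trans one_le, (encard_le_encard hs2).trans one_le, ?_, fun r y Θ hΘ => ⟨names_le y Θ hΘ, fun A hA => ?_⟩⟩
  · rintro (h | h | h)
    · exact indep h
    · exact indep (over_of_dep h)
    · exact indep (over_of_lin h)
  · rw [baseField_eq, S_eq]
    exact Pool.Agent.N13.SI.trdeg y Θ (fun θ hθ => (overAnd_iff _ _).1 (hΘ θ hθ)) A fun p hp => ⟨(hA p hp).2, (hA p hp).1⟩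

end Pool.Agent.Results.MP_58e087_nt.DampedSineIntegrals
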