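import Pool.Agent.N493.NRLocal

set_option autoImplicit false

/-!
# Near relations between `1`, `e` and `π` at all scales of an interval

Let `ξ` be a real number (for instance `ξ = π`) and `w > (3 + √5) / 2 = 2.618...`. If at every scale
`X ∈ [Y, Z]` there is a nonzero integer vector `(a, b, c)` with `|b|, |c| ≤ X` and
`|a + b e + c ξ| ≤ X ^ (-w)`, then there is a single nonzero vector of height `≤ Y ^ κ` (any
`κ ≥ 1` with `κ (w - 2) > 1`, for instance the golden ratio) which is a near relation of precision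
`Z ^ (-w)`. The constants do not depend on `ξ`. In particular (`Z → ∞`) near relations at all
scales `X ≥ Y` force an exact relation of height `≤ Y ^ κ`, and `1`, `e`, `π` are linearly dependent
over `ℚ` if and only if for some `w > (3 + √5) / 2` there are near relations at all large scales.
-/

namespace Pool.Agent.Results.MP_58e087_nt.NearRelationsAtAllScales

/-- `a + b e + c ξ` for `v = (a, b, c)` -/
noncomputable def value (ξ : ℝ) (v : ℤ × ℤ × ℤ) : ℝ := v.1 + v.2.1 * Real.exp 1 + v.2.2 * ξ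

/-- the height `max (|b|, |c|)` of `v = (a, b, c)` -/
def height (v : ℤ × ℤ × ℤ) : ℕ := max v.2.1.natAbs v.2.2.natAbs

/-- there is a nonzero `v = (a, b, c)` with `|b|, |c| ≤ H` and `|a + b e + c ξ| ≤ δ` -/
def Near (ξ H δ : ℝ) : Prop := ∃ v : ℤ × ℤ × ℤ, v ≠ 0 ∧ (height v : ℝ) ≤ H ∧ |value ξ v| ≤ δ

open Pool.Agent.N493.NR in
/-- near relations at all scales of an interval -/
theorem main (w κ : ℝ) (hw : (3 + Real.sqrt 5) / 2 < w) (hκ1 : 1 ≤ κ) (hκ : 1 < κ * (w - 2)) :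
    ∃ Y₀ : ℝ, 1 ≤ Y₀ ∧ ∀ ξ Y Z : ℝ, Y₀ ≤ Y → Y ≤ Z →
      (∀ X : ℝ, Y ≤ X → X ≤ Z → Near ξ X (X ^ (-w))) → Near ξ (Y ^ κ) (Z ^ (-w)) := by
  obtain ⟨Y0, hY0, h⟩ := local_uniform (Real.exp 1)
    (fun ε hε => Pool.Agent.H43R2.Cplx.EMeas.measure ε hε) w κ hw hκ1 hκ
  exact ⟨Y0, hY0, fun ξ Y Z hY hZ hU => h ξ Y Z hY hZ hU⟩

open Pool.Agent.N493.NR in
/-- near relations at all large scales come from an exact relation -/
theorem exact (w κ : ℝ) (hw : (3 + Real.sqrt 5) / 2 < w) (hκ1 : 1 ≤ κ) (hκ : 1 < κ * (w - 2)) :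
    ∃ Y₀ : ℝ, 1 ≤ Y₀ ∧ ∀ ξ Y : ℝ, Y₀ ≤ Y →
      (∀ X : ℝ, Y ≤ X → Near ξ X (X ^ (-w))) → Near ξ (Y ^ κ) 0 := by
  obtain ⟨Y0, hY0, h⟩ := main w κ hw hκ1 hκ
  refine ⟨Y0, hY0, fun ξ Y hY hU => ?_⟩
  have hY1 : 1 ≤ Y := hY0.trans hY
  have hw0 : 0 < w := by
    have := Real.sqrt_nonneg 5
    linarith
  obtain ⟨v, hv0, hvh, hvmin⟩ := exists_min (Real.exp 1) ξ ⌊Y ^ κ⌋₊
  have hYκ : 0 ≤ Y ^ κ := by positivity
  refine ⟨v, hv0, ?_, ?_⟩
  · have h1 : (height v : ℝ) ≤ (⌊Y ^ κ⌋₊ : ℝ) := by exact_mod_cast hvh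
    exact h1.trans (Nat.floor_le hYκ)
  · by_contra hlt
    push Not at hlt
    have htend := tendsto_rpow_neg_atTop hw0
    obtain ⟨Z, hZ1, hZ2⟩ := ((htend.eventually_lt_const hlt).and
      (Filter.eventually_ge_atTop Y)).exists
    obtain ⟨u, hu0, hu1, hu2⟩ := h ξ Y Z hY hZ2 fun X hX _ => hU X hX
    have hu3 : ht u ≤ ⌊Y ^ κ⌋₊ := Nat.le_floor hu1
    have h4 := hvmin u hu0 hu3
    have h5 : |L (Real.exp 1) ξ u| ≤ Z ^ (-w) := hu2
    have h6 : |value ξ v| = |L (Real.exp 1) ξ v| := rfl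
    rw [h6] at hZ1
    linarith

/-- rational and integral relations -/
theorem dependent_iff (ξ : ℝ) : (¬ LinearIndependent ℚ ![(1 : ℝ), Real.exp 1, ξ]) ↔
    ∃ v : ℤ × ℤ × ℤ, v ≠ 0 ∧ value ξ v = 0 := by
  rw [Fintype.not_linearIndependent_iff]
  constructor
  · rintro ⟨g, hg, i, hi⟩
    rw [Fin.sum_univ_three] at hg
    simp only [Matrix.cons_val_zero, Matrix.cons_val_one, Matrix.cons_val, Rat.smul_def] at hg
    have e : ∀ k : Fin 3, ((g k).den : ℝ) * (g k : ℝ) = (g k).num := by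
      intro k
      have := Rat.den_mul_eq_num (g k)
      exact_mod_cast congrArg (fun z : ℚ => (z : ℝ)) this
    have d : ∀ k : Fin 3, ((g k).den : ℤ) ≠ 0 := fun k => by exact_mod_cast (g k).den_nz
    refine ⟨((g 0).num * (g 1).den * (g 2).den, (g 1).num * (g 0).den * (g 2).den,
      (g 2).num * (g 0).den * (g 1).den), ?_, ?_⟩
    · intro h0
      rw [Prod.ext_iff, Prod.ext_iff] at h0
      obtain ⟨h1, h2, h3⟩ := h0
      simp only [Prod.fst_zero, Prod.snd_zero] at h1 h2 h3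
      have hn : (g i).num ≠ 0 := Rat.num_ne_zero.2 hi
      fin_cases i
      · exact hn (by simpa [d 1, d 2] using h1)
      · exact hn (by simpa [d 0, d 2] using h2)
      · exact hn (by simpa [d 0, d 1] using h3)
    · unfold value
      push_cast
      rw [← e 0, ← e 1, ← e 2]
      linear_combination ((g 0).den : ℝ) * ((g 1).den : ℝ) * ((g 2).den : ℝ) * hg
  · rintro ⟨v, hv0, hv⟩
    refine ⟨![(v.1 : ℚ), (v.2.1 : ℚ), (v.2.2 : ℚ)], ?_, ?_⟩
    · rw [Fin.sum_univ_three]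
      simp only [Matrix.cons_val_zero, Matrix.cons_val_one, Matrix.cons_val, Rat.smul_def]
      push_cast
      unfold value at hv
      linarith
    · by_contra hcon
      push Not at hcon
      apply hv0
      have h0 := hcon 0
      have h1 := hcon 1
      have h2 := hcon 2
      simp only [Matrix.cons_val_zero, Matrix.cons_val_one, Matrix.cons_val] at h0 h1 h2
      refine Prod.ext ?_ (Prod.ext ?_ ?_)
      · exact_mod_cast h0
      · exact_mod_cast h1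
      · exact_mod_cast h2

/-- Let `w > (3 + √5) / 2`, `κ ≥ 1`, `κ (w - 2) > 1`. For large `Y`, all real `ξ` and all `Z ≥ Y`:
near relations of height `≤ X` and value `≤ X ^ (-w)` at all scales `X ∈ [Y, Z]` imply one near
relation of height `≤ Y ^ κ` and value `≤ Z ^ (-w)`; near relations at all scales `X ≥ Y` imply an
exact relation of height `≤ Y ^ κ`. Moreover `1`, `e`, `π` are linearly dependent over `ℚ` if and
only if there are near relations at all large scales for some exponent `w > (3 + √5) / 2`. -/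
theorem result :
    (∀ w κ : ℝ, (3 + Real.sqrt 5) / 2 < w → 1 ≤ κ → 1 < κ * (w - 2) →
      ∃ Y₀ : ℝ, 1 ≤ Y₀ ∧ ∀ ξ Y : ℝ, Y₀ ≤ Y →
        (∀ Z : ℝ, Y ≤ Z → (∀ X : ℝ, Y ≤ X → X ≤ Z → Near ξ X (X ^ (-w))) →
          Near ξ (Y ^ κ) (Z ^ (-w))) ∧
        ((∀ X : ℝ, Y ≤ X → Near ξ X (X ^ (-w))) → Near ξ (Y ^ κ) 0)) ∧
    ((¬ LinearIndependent ℚ ![(1 : ℝ), Real.exp 1, Real.pi]) ↔
      ∃ w Y : ℝ, (3 + Real.sqrt 5) / 2 < w ∧ ∀ X : ℝ, Y ≤ X → Near Real.pi X (X ^ (-w))) := by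
  refine ⟨?_, ?_⟩
  · intro w κ hw hκ1 hκ
    obtain ⟨Y1, hY1, h1⟩ := main w κ hw hκ1 hκ
    obtain ⟨Y2, hY2, h2⟩ := exact w κ hw hκ1 hκ
    refine ⟨max Y1 Y2, hY1.trans (le_max_left _ _), fun ξ Y hY => ⟨fun Z hZ hU => ?_, fun hU => ?_⟩⟩
    · exact h1 ξ Y Z ((le_max_left _ _).trans hY) hZ hU
    · exact h2 ξ Y ((le_max_right _ _).trans hY) hU
  · rw [dependent_iff]
    constructor
    · rintro ⟨v, hv0, hv⟩
      refine ⟨4, height v, ?_, fun X hX => ⟨v, hv0, hX, ?_⟩⟩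
      · have h52 : Real.sqrt 5 < 3 := by
          rw [Real.sqrt_lt' (by norm_num)]
          norm_num
        linarith
      · rw [hv, abs_zero]
        have : (0 : ℝ) ≤ X := (Nat.cast_nonneg _).trans hX
        positivity
    · rintro ⟨w, Y, hw, hU⟩
      have h52 : 2.2 ≤ Real.sqrt 5 := Real.le_sqrt_of_sq_le (by norm_num)
      obtain ⟨Y0, hY0, h⟩ := exact w 2 hw (by norm_num) (by linarith)
      obtain ⟨v, hv0, -, hv⟩ := h Real.pi (max Y0 Y) (le_max_left _ _)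
        fun X hX => hU X ((le_max_right _ _).trans hX)
      exact ⟨v, hv0, abs_eq_zero.1 (le_antisymm hv (abs_nonneg _))⟩

end Pool.Agent.Results.MP_58e087_nt.NearRelationsAtAllScales
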