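import Pool.Agent.N493.NRSharp2

set_option autoImplicit false

/-!
# The exact threshold for near relations between `1`, `e` and one more number

Put `θ(X) = log log X / (X ^ 3 log X)`. There is `c > 0` such that for every real `ξ` (for instance
`ξ = π`) and every `X ≥ 3` the integer vectors `(a, b, c)` with `|b|, |c| ≤ X` and
`|a + b e + c ξ| ≤ c θ(X)` lie on one line through the origin. The function `θ` is best possible up
to the constant: there are arbitrarily large `X` and real `ξ` for which two vectors on different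
lines satisfy `|b|, |c| ≤ X` and `|a + b e + c ξ| ≤ 16 θ(X)`.
-/

namespace Pool.Agent.Results.MP_58e087_nt.NearRelationsOnALine

/-- `v = (a, b, c)` satisfies `|b|, |c| ≤ X` and `|a + b e + c ξ| ≤ δ` -/
def IsNear (ξ X δ : ℝ) (v : ℤ × ℤ × ℤ) : Prop :=
  |(v.2.1 : ℝ)| ≤ X ∧ |(v.2.2 : ℝ)| ≤ X ∧ |(v.1 : ℝ) + v.2.1 * Real.exp 1 + v.2.2 * ξ| ≤ δ

/-- `u` and `v` lie on one line through the origin: all `2 × 2` minors vanish -/
def Proportional (u v : ℤ × ℤ × ℤ) : Prop :=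
  u.1 * v.2.1 = v.1 * u.2.1 ∧ u.1 * v.2.2 = v.1 * u.2.2 ∧ u.2.1 * v.2.2 = v.2.1 * u.2.2

/-- `log log X / (X ^ 3 log X)` -/
noncomputable def threshold (X : ℝ) : ℝ := Real.log (Real.log X) / (X ^ 3 * Real.log X)

open Pool.Agent.N493.NR in
lemma ht_le (v : ℤ × ℤ × ℤ) (X : ℝ) (h1 : |(v.2.1 : ℝ)| ≤ X) (h2 : |(v.2.2 : ℝ)| ≤ X) :
    (ht v : ℝ) ≤ X := by
  unfold ht
  rw [Nat.cast_max, max_le_iff, Nat.cast_natAbs, Nat.cast_natAbs, Int.cast_abs, Int.cast_abs]
  exact ⟨h1, h2⟩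

/-- There is `c > 0` such that for every real `ξ` and every `X ≥ 3` the integer vectors `(a, b, c')`
with `|b|, |c'| ≤ X` and `|a + b e + c' ξ| ≤ c θ(X)`, `θ(X) = log log X / (X ^ 3 log X)`, lie on one
line through the origin; and there are arbitrarily large `X` and real `ξ` with two such vectors for
`16 θ(X)` which are not on one line. -/
theorem result :
    (∃ c : ℝ, 0 < c ∧ ∀ ξ X : ℝ, 3 ≤ X → ∀ u v : ℤ × ℤ × ℤ,
      IsNear ξ X (c * threshold X) u → IsNear ξ X (c * threshold X) v → Proportional u v) ∧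
    (∀ X₀ : ℝ, ∃ X : ℝ, X₀ ≤ X ∧ 3 ≤ X ∧ ∃ (ξ : ℝ) (u v : ℤ × ℤ × ℤ),
      IsNear ξ X (16 * threshold X) u ∧ IsNear ξ X (16 * threshold X) v ∧ ¬ Proportional u v) := by
  constructor
  · obtain ⟨c, hc0, hc⟩ := Pool.Agent.N493.NR.line_e
    refine ⟨c, hc0, fun ξ X hX u v hu hv => ?_⟩
    have e : c * threshold X = c * Real.log (Real.log X) / (X ^ 3 * Real.log X) := by
      unfold threshold; rw [mul_div_assoc]
    unfold IsNear at hu hv
    rw [e] at hu hv
    exact hc ξ X hX u v (ht_le u X hu.1 hu.2.1) (ht_le v X hv.1 hv.2.1) hu.2.2 hv.2.2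
  · intro X0
    obtain ⟨X, hX0, hX3, ξ, u, v, hu, hv, hu', hv', hp⟩ := Pool.Agent.N493.NR.sharp_e X0
    have e : 16 * threshold X = 16 * Real.log (Real.log X) / (X ^ 3 * Real.log X) := by
      unfold threshold; rw [mul_div_assoc]
    refine ⟨X, hX0, hX3, ξ, u, v, ⟨?_, ?_, ?_⟩, ⟨?_, ?_, ?_⟩, hp⟩
    · exact (Pool.Agent.N493.NR.b_le u).trans hu
    · exact (Pool.Agent.N493.NR.c_le u).trans hu
    · rw [e]; exact hu'
    · exact (Pool.Agent.N493.NR.b_le v).trans hv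
    · exact (Pool.Agent.N493.NR.c_le v).trans hv
    · rw [e]; exact hv'

end Pool.Agent.Results.MP_58e087_nt.NearRelationsOnALine
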