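import Pool.Agent.N743.Dg.LI

/-!
# Linear recurrences for the digits of the numbers `ξ + s e`, `s` rational

`1`, `e`, `ξ` are linearly dependent over `ℚ` if and only if `ξ + s e` is rational for some rational
`s`. We show that at every length `L` the first `L` digits of `ξ + s e` satisfy a linear recurrence
of order `≤ κ L` for at most one `s` of height `≤ b ^ (δ L)`, if `κ + δ < 1 / 4`, and that `1`, `e`, `ξ` are
linearly independent if and only if for arbitrarily large `L` there is no such `s`.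
-/

set_option autoImplicit false

namespace Pool.Agent.Results.MP_58e087_nt.RecurrencesForDigits

open Pool.Agent.N743.Dg

/-- `d 1, …, d L` satisfy the linear recurrence `d (i + m) = c 0 * d i + … + c (m - 1) * d (i + m - 1)`,
`1 ≤ i ≤ L - m`. -/
def Recurrence (d : ℕ → ℤ) (c : ℕ → ℚ) (L m : ℕ) : Prop :=
  ∀ i : ℕ, 1 ≤ i → i + m ≤ L → (d (i + m) : ℚ) = ∑ j ∈ Finset.range m, c j * (d (i + j) : ℚ)

/-- the linear complexity `N(x; b, L)` of the first `L` digits `⌊x b ^ i⌋ mod b`, `1 ≤ i ≤ L`, of `x` in base `b`: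
the least order `m` of a linear recurrence over `ℚ` satisfied by them -/
noncomputable def N (x : ℝ) (b L : ℕ) : ℕ :=
  sInf {m | ∃ c : ℕ → ℚ, Recurrence (fun i => ⌊x * (b : ℝ) ^ i⌋ % (b : ℤ)) c L m}

/-- the height of a rational number: `max(|p|, q)` for `s = p / q` in lowest terms -/
noncomputable def height (s : ℚ) : ℝ := max |(s.num : ℝ)| s.den

/-- **Main theorem.** `N(x; b, L)` is the linear complexity of the first `L` digits of `x` in base `b`,
`h(s)` the height of `s`.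

(1) For every `ε > 0` there is `C` such that for all real `ξ`, all rational `s ≠ s'`, all bases `b`, `b'` and all
lengths `L`, `L'`: `min(L log b, L' log b')` is at most
`(2 + ε) (N(ξ + s e; b, L) log b + N(ξ + s' e; b', L') log b' + log h(s) + log h(s')) + C (log b + log b')`.

(2) Let `κ, δ > 0`, `κ + δ < 1 / 4`. There is `L₀` such that for all real `ξ`, all `b ≥ 2` and `L ≥ L₀` there is at most
one rational `s` with `h(s) ≤ b ^ (δ L)` and `N(ξ + s e; b, L) ≤ κ L`.

(3) For such `κ`, `δ`, every `b ≥ 2` and every real `ξ` (for instance `ξ = π`): `1`, `e`, `ξ` are linearly independent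
over `ℚ` if and only if there are arbitrarily large `L` such that `N(ξ + s e; b, L) > κ L` for all rational `s` with
`h(s) ≤ b ^ (δ L)`. -/
theorem result :
    (∀ ε : ℝ, 0 < ε → ∃ C : ℝ, 0 ≤ C ∧ ∀ (ξ : ℝ) (s s' : ℚ), s ≠ s' → ∀ b b' : ℕ, 2 ≤ b → 2 ≤ b' →
      ∀ L L' : ℕ, min (L * Real.log b) (L' * Real.log b') ≤
        (2 + ε) * (N (ξ + s * Real.exp 1) b L * Real.log b + N (ξ + s' * Real.exp 1) b' L' * Real.log b' +
          Real.log (height s) + Real.log (height s')) + C * (Real.log b + Real.log b')) ∧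
    (∀ κ δ : ℝ, 0 < κ → 0 < δ → κ + δ < 1 / 4 →
      (∃ L₀ : ℕ, ∀ (ξ : ℝ) (b L : ℕ), 2 ≤ b → L₀ ≤ L →
        {s : ℚ | height s ≤ (b : ℝ) ^ (δ * L) ∧ N (ξ + s * Real.exp 1) b L ≤ κ * L}.Subsingleton) ∧
      (∀ (b : ℕ) (ξ : ℝ), 2 ≤ b → (LinearIndependent ℚ ![(1 : ℝ), Real.exp 1, ξ] ↔
        ∀ L₀ : ℕ, ∃ L : ℕ, L₀ ≤ L ∧ ∀ s : ℚ, height s ≤ (b : ℝ) ^ (δ * L) →
          κ * L < N (ξ + s * Real.exp 1) b L))) := by
  refine ⟨fun ε hε => two_fam ε hε, fun κ δ hκ hδ hκδ => ⟨?_, fun b ξ hb => ?_⟩⟩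
  · obtain ⟨L₀, h⟩ := fam_subsingleton κ δ hκ.le hδ.le hκδ
    refine ⟨L₀, fun ξ b L hb hL s hs s' hs' => ?_⟩
    exact h ξ s s' b hb L L hL le_rfl (by omega) hs.1 hs'.1 hs.2 hs'.2
  · have h := criterion κ δ hκ hδ hκδ b hb ξ
    rw [← dep_iff] at h
    have h2 := not_congr h
    rw [not_not] at h2
    rw [h2]
    push Not
    rfl

end Pool.Agent.Results.MP_58e087_nt.RecurrencesForDigits
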